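import Mathlib

/-!
# Varieties over a perfect field, curves with their Jacobians, and motivic Borel–Moore homology
-/

set_option autoImplicit false

namespace Pool.Agent.R900.BS

/-- Data: varieties over a perfect field `k` (reduced separated schemes of finite type).

* `dim`: the dimension (`0` for the empty scheme);
* `Cut Z X U`: `Z` is a closed subscheme of `X` and `U` is its open complement;
* `Cover U' U`: there is a finite surjective morphism `U' → U`, and `U`, `U'` are smooth and connected;
* `Curve g N C V P J`: `C → V` is a smooth projective curve with geometrically connected fibres of genus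
  `g` and with a section, `V` is smooth over `k`, affine and connected, `J → V` is its Jacobian, `2 g ≤ N + 1`,
  `1 ≤ N` and `P` is the `N`-th symmetric power of `C` over `V`;
* `Projective Y`: `Y` is smooth, projective and connected. -/
structure Varieties (S : Type) where
  dim : S → ℕ
  Empty : S → Prop
  Cut : S → S → S → Prop
  Cover : S → S → Prop
  Curve : ℕ → ℕ → S → S → S → S → Prop
  Projective : S → Prop

/-- `J` is the Jacobian of a curve over a base of dimension less than `d`. -/
def JacobianBelow {S : Type} (G : Varieties S) (d : ℕ) (J : S) : Prop :=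
  ∃ g N C V P, G.Curve g N C V P J ∧ G.dim V < d

/-- `J` is the Jacobian of a curve. -/
def Jacobian {S : Type} (G : Varieties S) (J : S) : Prop := ∃ g N C V P, G.Curve g N C V P J

/-- `U` has a finite covering `U'` that is an open subscheme of a smooth projective curve `C → V` with a
section, with a complement `T`. -/
def IsFibred {S : Type} (G : Varieties S) (U : S) : Prop :=
  ∃ U' T C V P J g N, G.Cover U' U ∧ G.Cut T C U' ∧ G.Curve g N C V P J ∧ G.dim C = G.dim U ∧
    G.dim V < G.dim U ∧ (G.Empty T ∨ G.dim T < G.dim U)

/-- `U` has a finite covering `U'` that is an open subscheme of a smooth projective variety `Y` of the same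
dimension, with a complement `T`. -/
def IsAltered {S : Type} (G : Varieties S) (U : S) : Prop :=
  ∃ U' T Y, G.Cover U' U ∧ G.Cut T Y U' ∧ G.Projective Y ∧ G.dim Y = G.dim U ∧
    (G.Empty T ∨ G.dim T < G.dim U)

/-- The facts on varieties which are used.

`noeth`: induction on closed subsets. `generic`: every nonempty `X` has a nonempty open subscheme `U` which
is fibred in curves as in `IsFibred`, or is the spectrum of a finite extension of `k`, which is the Jacobian
of the projective line over itself. (The function field `K` of a component of `X` is the function field of a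
curve over a subfield `L`; after finite extensions of `K` and `L` the curve is smooth with a rational
point; spread out.) `alter`: the theorem of de Jong on alterations. `dim_curve`: the dimensions of the
Jacobian and of the symmetric power of a curve. -/
structure IsVarieties {S : Type} (G : Varieties S) : Prop where
  noeth : WellFounded fun Z X => ∃ U, G.Cut Z X U ∧ ¬ G.Empty U
  dim_le : ∀ Z X U, G.Cut Z X U → G.dim Z ≤ G.dim X ∧ G.dim U ≤ G.dim X
  generic : ∀ X, ¬ G.Empty X → ∃ Z U, G.Cut Z X U ∧ ¬ G.Empty U ∧
    (IsFibred G U ∨ ∃ N C P, G.Curve 0 N C U P U ∧ G.dim U = 0)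
  alter : ∀ X, ¬ G.Empty X → ∃ Z U, G.Cut Z X U ∧ ¬ G.Empty U ∧ IsAltered G U
  dim_curve : ∀ g N C V P J, G.Curve g N C V P J → g ≤ N ∧ G.dim C = G.dim V + 1 ∧
    G.dim J = G.dim V + g ∧ G.dim P = G.dim V + N

/-- Data: motivic Borel–Moore homology `H m r X = H_m(X, r) = CH_r(X, m - 2 r)`, with integral or rational
coefficients. For smooth `X` of dimension `d` the group `H_(2 d - i)(X, d - n)` is the motivic cohomology
`H^i(X, n) = CH^n(X, 2 n - i)`. -/
structure Homology (S : Type) where
  H : ℤ → ℤ → S → Type
  [group : ∀ m r X, AddCommGroup (H m r X)]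

attribute [instance] Homology.group

/-- The motivic cohomology `H^i(X, n)` of a smooth variety. -/
abbrev Coh {S : Type} (G : Varieties S) (T : Homology S) (i n : ℤ) (X : S) : Type :=
  T.H (2 * G.dim X - i) (G.dim X - n) X

/-- The vanishing of `H_m(X, r)` for `m ≥ 2 dim X - b` and `r < dim X`. For smooth `X` it is the vanishing of
`H^i(X, n)` for `i ≤ b` and `n ≥ 1`. -/
def Vanishes {S : Type} (G : Varieties S) (T : Homology S) (b : ℤ) (X : S) : Prop :=
  ∀ m r : ℤ, 2 * G.dim X - b ≤ m → r < G.dim X → Subsingleton (T.H m r X)

/-- The localization sequence for a closed subscheme `Z` of `X` with the complement `U`. -/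
def HasSequence {S : Type} (T : Homology S) (r : ℤ) (Z X U : S) : Prop :=
  ∃ (a : ∀ m, T.H m r Z →+ T.H m r X) (b : ∀ m, T.H m r X →+ T.H m r U)
    (c : ∀ m, T.H m r U →+ T.H (m - 1) r Z), ∀ m,
      Function.Exact (a m) (b m) ∧ Function.Exact (b m) (c m) ∧ Function.Exact (c m) (a (m - 1))

/-- Homomorphisms `u` (inverse image) and `v` (direct image) for a finite covering `U' → U` of degree `e`,
with `v ∘ u = e`. -/
def HasTransfer {S : Type} (T : Homology S) (e : ℕ) (m r : ℤ) (U' U : S) : Prop :=
  ∃ (u : T.H m r U →+ T.H m r U') (v : T.H m r U' →+ T.H m r U), ∀ x, v (u x) = e • x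

/-- For a curve `C → V` with section `s` let `iota` be the inverse image for the closed immersion
`x ↦ x + (N - 1) s` into `P = Sym^N C`, let `rho` be given by the correspondence of all `(D, x)`, `x` in `D`,
and let `pi`, `sigma` be the inverse images for `C → V` and `s`; then
`iota ∘ rho = 1 + (N - 1) pi ∘ sigma` in motivic cohomology. -/
def CurveFormula {S : Type} (G : Varieties S) (T : Homology S) (N : ℕ) (i n : ℤ) (C V P : S) : Prop :=
  ∃ (iota : Coh G T i n P →+ Coh G T i n C) (rho : Coh G T i n C →+ Coh G T i n P)
    (pi : Coh G T i n V →+ Coh G T i n C) (sigma : Coh G T i n C →+ Coh G T i n V),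
      ∀ x, iota (rho x) = x + (N - 1) • pi (sigma x)

/-- The projective bundle formula for the projective bundle `P` of a vector bundle of rank `e + 1`
over `J`. -/
def BundleFormula {S : Type} (T : Homology S) (e : ℕ) (m r : ℤ) (P J : S) : Prop :=
  Nonempty (T.H m r P ≃+ ∀ k : Fin (e + 1), T.H (m - 2 * k) (r - k) J)

/-- The properties of these groups that are used (all known), for the bound `b = 0` (integral coefficients)
or `b = -1` (rational coefficients).

`low`: `H_m(X, r) = 0` for `r ≥ dim X`, `m > 2 dim X`. `loc`: localization sequences. `cover`: for a finite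
covering `f` of degree `e` of smooth varieties `f_* f^* = e`. `torsion`: there is no torsion in `H^i(X, n)`,
`i ≤ b` (Beilinson and Lichtenbaum: torsion comes from étale cohomology of degree `i - 1`). `curve`, `bundle`:
see `CurveFormula`; `P` is the projective bundle of a vector bundle of rank `N - g + 1` over `J`. -/
structure IsHomology {S : Type} (G : Varieties S) (T : Homology S) (b : ℤ) : Prop where
  empty : ∀ m r X, G.Empty X → Subsingleton (T.H m r X)
  low : ∀ m r X, 2 * (G.dim X : ℤ) < m → (G.dim X : ℤ) ≤ r → Subsingleton (T.H m r X)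
  loc : ∀ Z X U, G.Cut Z X U → ∀ r, HasSequence T r Z X U
  cover : ∀ U' U, G.Cover U' U → G.dim U' = G.dim U ∧ ∃ e : ℕ, 0 < e ∧
    ∀ m r, HasTransfer T e m r U' U
  torsion : ∀ U' U, G.Cover U' U → ∀ m r : ℤ, 2 * G.dim U - b ≤ m → ∀ e : ℕ, 0 < e →
    ∀ x : T.H m r U, e • x = 0 → x = 0
  curve : ∀ g N C V P J, G.Curve g N C V P J → ∀ i n, CurveFormula G T N i n C V P
  bundle : ∀ g N C V P J, G.Curve g N C V P J → ∀ m r, BundleFormula T (N - g) m r P J

/-- The vanishing for all varieties of dimension at most `d` is equivalent to that for the smooth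
projective varieties of dimension at most `d`. -/
def ProjectiveSuffice {S : Type} (G : Varieties S) (T : Homology S) (b : ℤ) : Prop :=
  ∀ d, (∀ X, G.dim X ≤ d → Vanishes G T b X) ↔
    ∀ Y, G.Projective Y → G.dim Y ≤ d → Vanishes G T b Y

/-- The vanishing for all Jacobians over bases of dimension less than `d`, `d ≥ 1`, implies that for all
varieties of dimension at most `d`. -/
def JacobiansBounded {S : Type} (G : Varieties S) (T : Homology S) (b : ℤ) : Prop :=
  ∀ d, 1 ≤ d → (∀ J, JacobianBelow G d J → Vanishes G T b J) → ∀ X, G.dim X ≤ d → Vanishes G T b X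

/-- The vanishing for all varieties is equivalent to that for all Jacobians. -/
def JacobiansSuffice {S : Type} (G : Varieties S) (T : Homology S) (b : ℤ) : Prop :=
  (∀ X, Vanishes G T b X) ↔ ∀ J, Jacobian G J → Vanishes G T b J

end Pool.Agent.R900.BS
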