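import Pool.Agent.R900.BS.Defs

/-! # Reduction of the vanishing of motivic cohomology to Jacobians -/

set_option autoImplicit false

namespace Pool.Agent.R900.BS

variable {S : Type} {G : Varieties S} {T : Homology S} {b : ℤ}

/-- Vanishing in the range of a larger dimension. -/
lemma vanishes_of_le (hT : IsHomology G T b) (hb : b ≤ 0) {X : S} (hX : Vanishes G T b X) {e : ℤ}
    (he : G.dim X ≤ e) {m r : ℤ} (hm : 2 * e - b ≤ m) (hr : r < e) : Subsingleton (T.H m r X) := by
  by_cases h : r < G.dim X
  · exact hX m r (by omega) h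
  · exact hT.low m r X (by omega) (by omega)

lemma subsingleton_of_exact {A B C : Type} [AddCommGroup A] [AddCommGroup B] [AddCommGroup C]
    {f : A →+ B} {g : B →+ C} (h : Function.Exact f g) (hA : Subsingleton A)
    (hC : Subsingleton C) : Subsingleton B := by
  refine ⟨fun x y => ?_⟩
  have key : ∀ x : B, x = 0 := fun x => by
    obtain ⟨a, ha⟩ := (h x).1 (Subsingleton.elim _ _)
    rw [← ha, Subsingleton.elim a 0, map_zero]
  rw [key x, key y]

lemma vanishes_mid (hT : IsHomology G T b) (hb : b ≤ 0) {Z X U : S} (h : G.Cut Z X U)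
    (hd : G.dim Z ≤ G.dim X ∧ G.dim U ≤ G.dim X)
    (hZ : Vanishes G T b Z) (hU : Vanishes G T b U) : Vanishes G T b X := fun m r hm hr => by
  obtain ⟨a, b', c, habc⟩ := hT.loc Z X U h r
  exact subsingleton_of_exact (habc m).1
    (vanishes_of_le hT hb hZ (e := G.dim X) (by omega) hm hr)
    (vanishes_of_le hT hb hU (e := G.dim X) (by omega) hm hr)

lemma vanishes_open (hT : IsHomology G T b) (hb : b ≤ 0) {Z X U : S} (h : G.Cut Z X U)
    (hd : G.dim U = G.dim X) (hZ : G.Empty Z ∨ (G.dim Z < G.dim X ∧ Vanishes G T b Z))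
    (hX : Vanishes G T b X) : Vanishes G T b U := fun m r hm hr => by
  obtain ⟨a, b', c, habc⟩ := hT.loc Z X U h r
  refine subsingleton_of_exact (habc m).2.1 (hX m r (by omega) (by omega)) ?_
  rcases hZ with hZ | ⟨hZ, hZ'⟩
  · exact hT.empty _ _ _ hZ
  · by_cases h' : r < G.dim Z
    · exact hZ' _ _ (by omega) h'
    · exact hT.low _ _ _ (by omega) (by omega)

lemma vanishes_cover (hT : IsHomology G T b) {U' U : S} (h : G.Cover U' U)
    (hU : Vanishes G T b U') : Vanishes G T b U := fun m r hm hr => by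
  obtain ⟨hd, e, he, h'⟩ := hT.cover U' U h
  obtain ⟨u, v, huv⟩ := h' m r
  have hs : Subsingleton (T.H m r U') := hU m r (by omega) (by omega)
  have key : ∀ x : T.H m r U, x = 0 := fun x => by
    refine hT.torsion U' U h m r hm e he x ?_
    rw [← huv, Subsingleton.elim (u x) 0, map_zero]
  exact ⟨fun x y => by rw [key x, key y]⟩

lemma vanishes_coh {X : S} (hX : Vanishes G T b X) {i n : ℤ} (hi : i ≤ b) (hn : 1 ≤ n) :
    Subsingleton (Coh G T i n X) :=
  hX _ _ (by omega) (by omega)

lemma vanishes_of_coh {X : S} (h : ∀ i ≤ b, ∀ n ≥ 1, Subsingleton (Coh G T i n X)) :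
    Vanishes G T b X := fun m r hm hr => by
  have h' := h (2 * G.dim X - m) (by omega) (G.dim X - r) (by omega)
  rw [Coh] at h'
  rwa [sub_sub_cancel, sub_sub_cancel] at h'

lemma vanishes_curve (hT : IsHomology G T b) {g N : ℕ} {C V P J : S} (h : G.Curve g N C V P J)
    (hV : Vanishes G T b V) (hP : Vanishes G T b P) : Vanishes G T b C :=
  vanishes_of_coh fun i hi n hn => by
    obtain ⟨iota, rho, pi, sigma, hx⟩ := hT.curve g N C V P J h i n
    have h1 := vanishes_coh hV hi hn
    have h2 := vanishes_coh hP hi hn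
    have key : ∀ x : Coh G T i n C, x = 0 := fun x => by
      have h3 := hx x
      rw [Subsingleton.elim (rho x) 0, Subsingleton.elim (sigma x) 0, map_zero, map_zero, smul_zero,
        add_zero] at h3
      exact h3.symm
    exact ⟨fun x y => by rw [key x, key y]⟩

lemma vanishes_bundle (hG : IsVarieties G) (hT : IsHomology G T b) (hb : b ≤ 0) {g N : ℕ}
    {C V P J : S} (h : G.Curve g N C V P J) (hJ : Vanishes G T b J) : Vanishes G T b P := by
  intro m r hm hr
  obtain ⟨hg, hC, hJd, hPd⟩ := hG.dim_curve g N C V P J h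
  obtain ⟨e⟩ := hT.bundle g N C V P J h m r
  have : ∀ k : Fin (N - g + 1), Subsingleton (T.H (m - 2 * k) (r - k) J) := fun k =>
    vanishes_of_le hT hb hJ (e := G.dim P - k) (by omega) (by omega) (by omega)
  exact e.injective.subsingleton

lemma vanishes_fibred (hG : IsVarieties G) (hT : IsHomology G T b) (hb : b ≤ 0) {U : S} {d : ℕ}
    (hU : IsFibred G U) (hd : G.dim U ≤ d)
    (hJ : ∀ J, JacobianBelow G d J → Vanishes G T b J)
    (ih : ∀ X, G.dim X < G.dim U → Vanishes G T b X) : Vanishes G T b U := by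
  obtain ⟨U', Z, C, V, P, J, g, N, hcov, hcut, hcurve, hC, hV, hZ⟩ := hU
  have hJ' : Vanishes G T b J := hJ J ⟨g, N, C, V, P, hcurve, by omega⟩
  have hC' := vanishes_curve hT hcurve (ih V hV) (vanishes_bundle hG hT hb hcurve hJ')
  have hd' := (hT.cover U' U hcov).1
  refine vanishes_cover hT hcov (vanishes_open hT hb hcut (by omega) ?_ hC')
  rcases hZ with hZ | hZ
  · exact Or.inl hZ
  · exact Or.inr ⟨by omega, ih Z hZ⟩

theorem jacobiansBounded (hG : IsVarieties G) (hT : IsHomology G T b) (hb : b ≤ 0) :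
    JacobiansBounded G T b := by
  intro d hd1 hJ
  suffices hk : ∀ k, ∀ X, G.dim X < k → G.dim X ≤ d → Vanishes G T b X from
    fun X hX => hk (G.dim X + 1) X (Nat.lt_succ_self _) hX
  intro k
  induction k with
  | zero => exact fun X hX => absurd hX (Nat.not_lt_zero _)
  | succ k ih =>
    intro X
    induction X using hG.noeth.induction with
    | _ X ihX =>
      intro hX hXd
      by_cases hE : G.Empty X
      · exact fun m r _ _ => hT.empty m r X hE
      · obtain ⟨Z, U, hcut, hU, hgen⟩ := hG.generic X hE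
        have hZ := hG.dim_le Z X U hcut
        refine vanishes_mid hT hb hcut hZ (ihX Z ⟨U, hcut, hU⟩ (by omega) (by omega)) ?_
        rcases hgen with hf | ⟨N, C, P, hc, h0⟩
        · exact vanishes_fibred hG hT hb hf (by omega) hJ fun X' hX' => ih X' (by omega) (by omega)
        · exact hJ U ⟨0, N, C, U, P, hc, by omega⟩

theorem jacobiansSuffice (hG : IsVarieties G) (hT : IsHomology G T b) (hb : b ≤ 0) :
    JacobiansSuffice G T b :=
  ⟨fun h J _ => h J, fun h X => jacobiansBounded hG hT hb (G.dim X + 1) (by omega)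
    (fun J ⟨g, N, C, V, P, hJ, _⟩ => h J ⟨g, N, C, V, P, hJ⟩) X (by omega)⟩

theorem projectiveSuffice (hG : IsVarieties G) (hT : IsHomology G T b) (hb : b ≤ 0) :
    ProjectiveSuffice G T b := by
  intro d
  refine ⟨fun h Y _ hd => h Y hd, fun h => ?_⟩
  suffices hk : ∀ k, ∀ X, G.dim X < k → G.dim X ≤ d → Vanishes G T b X from
    fun X hX => hk (G.dim X + 1) X (Nat.lt_succ_self _) hX
  intro k
  induction k with
  | zero => exact fun X hX => absurd hX (Nat.not_lt_zero _)
  | succ k ih =>
    intro X
    induction X using hG.noeth.induction with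
    | _ X ihX =>
      intro hX hXd
      by_cases hE : G.Empty X
      · exact fun m r _ _ => hT.empty m r X hE
      · obtain ⟨Z, U, hcut, hU, U', T', Y, hcov, hcut', hY, hYd, hT'⟩ := hG.alter X hE
        have hZ := hG.dim_le Z X U hcut
        have hd' := (hT.cover U' U hcov).1
        refine vanishes_mid hT hb hcut hZ (ihX Z ⟨U, hcut, hU⟩ (by omega) (by omega))
          (vanishes_cover hT hcov (vanishes_open hT hb hcut' (by omega) ?_ (h Y hY (by omega))))
        rcases hT' with hT' | hT'
        · exact Or.inl hT'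
        · exact Or.inr ⟨by omega, ih T' (by omega) (by omega)⟩

end Pool.Agent.R900.BS
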